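import Pool.Agent.Helper65.Inj.JDefs

/-! Rows JE: three ends in one component; opposite colours; the pair of an attached end. -/

namespace Pool.Agent.Helper35.Inj

open Classical Pool.Agent.Helper65.Inj Pool.Agent.Helper65.Inj.Cub

set_option linter.unusedSectionVars false

variable {A B : Type} [Fintype A] [Fintype B] {H : Cub A B} {J : Finset A}

theorem adj_symm {u v : A} (h : H.Adj J u v) : H.Adj J v u := by
  obtain ⟨b, hb⟩ := h
  exact ⟨b, hb.symm⟩

theorem adj_ne {u v : A} (h : H.Adj J u v) : u ≠ v := by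
  obtain ⟨b, hb⟩ := h
  exact hb.1

/-- the graph of the pair blocks -/
def gr (H : Cub A B) (J : Finset A) : SimpleGraph A where
  Adj := H.Adj J
  symm := ⟨fun _ _ h => adj_symm h⟩
  loopless := ⟨fun _ h => adj_ne h rfl⟩

theorem rc_reach {a b : A} (h : H.Rc J a b) : (gr H J).Reachable a b := by
  unfold Cub.Rc at h
  induction h with
  | refl => exact SimpleGraph.Reachable.refl _
  | tail _ h2 ih => exact ih.trans (SimpleGraph.Adj.reachable (G := gr H J) h2)

/-- at most two neighbours -/
theorem nb2 (hO : H.Opt J) {v x y z : A} (hx : H.Adj J v x) (hy : H.Adj J v y) (hz : H.Adj J v z) :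
    x = y ∨ x = z ∨ y = z := by
  by_contra hcon
  push Not at hcon
  obtain ⟨h1, h2, h3⟩ := hcon
  obtain ⟨bx, qx⟩ := hx
  obtain ⟨by', qy⟩ := hy
  obtain ⟨bz, qz⟩ := hz
  have key : ∀ (b : B) (p q : A), H.Q J b v p → H.Q J b v q → p = q := by
    intro b p q hp hq
    rcases hp.2.2.2.2.2 q hq.2.2.1 hq.2.2.2.2.1 with h | h
    · exact absurd h.symm hq.1
    · exact h.symm
  have hxy : bx ≠ by' := fun e => h1 (key _ _ _ qx (e ▸ qy))
  have hxz : bx ≠ bz := fun e => h2 (key _ _ _ qx (e ▸ qz))
  have hyz : by' ≠ bz := fun e => h3 (key _ _ _ qy (e ▸ qz))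
  obtain ⟨f, hf⟩ := F0 hO qx.2.2.2.1
  have hP : ∀ (b : B) (p : A), H.P J b v → H.Q J b v p → False := fun b p h h' =>
    h'.1 (h.2.2 p h'.2.2.1 h'.2.2.2.2.1).symm
  rcases bl_cases qx.2.1 qy.2.1 qz.2.1 hxy hxz hyz hf.1 with e | e | e
  · rw [e] at hf
    exact hP _ _ hf qx
  · rw [e] at hf
    exact hP _ _ hf qy
  · rw [e] at hf
    exact hP _ _ hf qz

/-- an end has only one neighbour -/
theorem nb1 {v x y : A} (h : H.IsLf J v) (hx : H.Adj J v x) (hy : H.Adj J v y) : x = y := by
  obtain ⟨b, D, F, p, hl⟩ := h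
  have key : ∀ x, H.Adj J v x → x = p := by
    rintro x ⟨r, hr⟩
    have hP : ∀ (b : B), H.P J b v → H.Q J b v x → False := fun b h h' =>
      h'.1 (h.2.2 x h'.2.2.1 h'.2.2.2.2.1).symm
    rcases hl.all hr.2.1 with e | e | e
    · rw [e] at hr
      exact (hP _ hl.hb hr).elim
    · rw [e] at hr
      rcases hl.hD.2.2.2.2.2 x hr.2.2.1 hr.2.2.2.2.1 with h | h
      · exact absurd h.symm hr.1
      · exact h
    · rw [e] at hr
      exact (hP _ hl.hF hr).elim
  rw [key x hx, key y hy]

theorem st_E3 : ST_E3 := by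
  intro A B _ _ H J a b c hO ha hb hc hab hac nab nac
  obtain ⟨p, hp⟩ := (rc_reach hab).exists_isPath
  have hinj := hp.getVert_injOn
  have hlen : 0 < p.length := by
    rcases Nat.eq_zero_or_pos p.length with h | h
    · exact absurd (SimpleGraph.Walk.eq_of_length_eq_zero h) nab
    · exact h
  have hadj : ∀ i, i < p.length → H.Adj J (p.getVert i) (p.getVert (i + 1)) := fun i hi => p.adj_getVert_succ hi
  have hne : ∀ i j, i ≤ p.length → j ≤ p.length → i ≠ j → p.getVert i ≠ p.getVert j := by
    intro i j hi hj hij e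
    exact hij (hinj (by simpa using hi) (by simpa using hj) e)
  -- the path is closed
  have hcl : ∀ i, i ≤ p.length → ∀ x, H.Adj J (p.getVert i) x → ∃ j, j ≤ p.length ∧ p.getVert j = x := by
    intro i hi x hx
    rcases Nat.eq_zero_or_pos i with h0 | h0
    · subst h0
      refine ⟨1, by omega, ?_⟩
      have h1 := hadj 0 hlen
      rw [SimpleGraph.Walk.getVert_zero] at h1 hx
      exact nb1 ha h1 hx
    · rcases hi.eq_or_lt with h1 | h1
      · subst h1
        refine ⟨p.length - 1, by omega, ?_⟩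
        have h2 := adj_symm (hadj (p.length - 1) (by omega))
        rw [show p.length - 1 + 1 = p.length by omega] at h2
        rw [SimpleGraph.Walk.getVert_length] at h2 hx
        exact nb1 hb h2 hx
      · have h2 := adj_symm (hadj (i - 1) (by omega))
        rw [show i - 1 + 1 = i by omega] at h2
        have h3 := hadj i h1
        rcases nb2 hO h2 h3 hx with e | e | e
        · exact absurd e (hne _ _ (by omega) (by omega) (by omega))
        · exact ⟨i - 1, by omega, e⟩
        · exact ⟨i + 1, by omega, e⟩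
  have hall : ∀ x, H.Rc J a x → ∃ i, i ≤ p.length ∧ p.getVert i = x := by
    intro x hx
    unfold Cub.Rc at hx
    induction hx with
    | refl => exact ⟨0, by omega, p.getVert_zero⟩
    | tail _ h2 ih =>
      obtain ⟨i, hi, rfl⟩ := ih
      exact hcl i hi _ h2
  obtain ⟨i, hi, hic⟩ := hall c hac
  rcases Nat.eq_zero_or_pos i with h0 | h0
  · subst h0
    rw [p.getVert_zero] at hic
    exact absurd hic nac
  · rcases hi.eq_or_lt with h1 | h1
    · subst h1
      rw [p.getVert_length] at hic
      exact hic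
    · exfalso
      have h2 := adj_symm (hadj (i - 1) (by omega))
      rw [show i - 1 + 1 = i by omega, hic] at h2
      have h3 := hadj i h1
      rw [hic] at h3
      exact hne (i - 1) (i + 1) (by omega) (by omega) (by omega) (nb1 hc h2 h3)

theorem st_OR : ST_OR := by
  intro A B _ _ H J a b hO ha hs
  by_contra hcon
  obtain ⟨⟨s, hv⟩, _⟩ := hO.1
  have h1 := hs s hv
  have hv' : H.Val J (fun u => if H.Rc J a u then !(s u) else s u) := by
    intro r u v hq
    have h2 : H.Rc J a u ↔ H.Rc J a v := by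
      unfold Cub.Rc
      constructor
      · intro h
        exact h.tail ⟨r, hq⟩
      · intro h
        exact h.tail ⟨r, hq.symm⟩
    have h3 := hv r u v hq
    beta_reduce
    by_cases h4 : H.Rc J a u
    · rw [if_pos h4, if_pos (h2.mp h4)]
      simpa using h3
    · rw [if_neg h4, if_neg fun h => h4 (h2.mpr h)]
      exact h3
  have h5 := hs _ hv'
  beta_reduce at h5
  have h6 : H.Rc J a a := Relation.ReflTransGen.refl
  rw [if_pos h6, if_neg hcon] at h5
  revert h1 h5
  cases s a <;> cases s b <;> simp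

theorem XD_rc {A B : Type} [Fintype A] [Fintype B] {H : Cub A B} {J : Finset A} (hO : H.Opt J) {v j k : A}
    {T b c : B} (h : XD H J v T b c j k) : H.Rc J j k :=
  st_OR A B H J j k hO h.hj.2.1 fun _ hs => h.opp hO hs

theorem XD_lf1 {A B : Type} [Fintype A] [Fintype B] {H : Cub A B} {J : Finset A} (hO : H.Opt J) {v j k : A}
    {T b c : B} (h : XD H J v T b c j k) : H.IsLf J j := by
  obtain ⟨D, F, p, hl⟩ := h.lf hO
  exact ⟨b, D, F, p, hl⟩

theorem st_End : ST_End := by
  intro A B _ _ H J u v a k k' T b c T' b' c' hO h h'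
  exact st_E3 A B H J a k k' hO (XD_lf1 hO h) (XD_lf1 hO h.symm) (XD_lf1 hO h'.symm) (XD_rc hO h) (XD_rc hO h')
    (h.ne hO) (h'.ne hO)

end Pool.Agent.Helper35.Inj
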