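import Pool.Agent.Helper35.Inj.JE

/-! Row Jg: the 2-colouring of the incidences of `J` and of the dropped incidences. -/

namespace Pool.Agent.Helper35.Inj

open Classical Pool.Agent.Helper65.Inj Pool.Agent.Helper65.Inj.Cub

set_option linter.unusedSectionVars false

variable {A B : Type} [Fintype A] [Fintype B] {H : Cub A B} {J : Finset A}

/-- tokens of the rest are unhit blocks -/
theorem tok_U {D : Finset A} {b : B} (h : (H.rs J D).Tok b) : H.U J b := by
  have h1 : ((H.rs J D).pt b).card = 3 := h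
  have h2 : (H.rs J D).pt b ⊆ H.pt b := by
    intro v hv
    have hv' := Finset.mem_filter.mp hv
    exact (H.mem v b).mp hv'.2
  have h3 : (H.rs J D).pt b = H.pt b := Finset.eq_of_subset_of_card_le h2 (by rw [h1, H.pt3])
  intro u hu huJ
  rw [← h3] at hu
  have hu' := Finset.mem_filter.mp hu
  exact (Finset.mem_sdiff.mp hu'.1).2 huJ

theorem P_Q {b : B} {v x : A} (h : H.P J b v) (h' : H.Q J b v x) : False :=
  h'.1 (h.2.2 x h'.2.2.1 h'.2.2.2.2.1).symm

/-- an end has one pair block -/
theorem lf_Q {v x y : A} {b b' : B} (h : H.IsLf J v) (hx : H.Q J b v x) (hy : H.Q J b' v y) : b = b' := by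
  obtain ⟨b0, D, F, p, hl⟩ := h
  have key : ∀ (r : B) (x : A), H.Q J r v x → r = D := by
    intro r x hr
    rcases hl.all hr.2.1 with e | e | e
    · rw [e] at hr
      exact (P_Q hl.hb hr).elim
    · exact e
    · rw [e] at hr
      exact (P_Q hl.hF hr).elim
  rw [key b x hx, key b' y hy]

/-- two ends joined by a pair block -/
def Sh (H : Cub A B) (J : Finset A) (u : A) : Prop := ∃ D k, H.Q J D u k ∧ H.IsLf J u ∧ H.IsLf J k

/-- the colouring -/
noncomputable def gcol (H : Cub A B) (J : Finset A) (s : A → Bool) (u : A) (b : B) : Bool :=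
  if u ∈ J then
    (if (∃ t, u ∈ H.pt t ∧ H.Tr J t) then decide (H.Tr J b)
      else if Sh H J u then decide (∃ k, H.Q J b u k) else s u)
  else true

/-- a short attached end -/
theorem short_col (hO : H.Opt J) (s : A → Bool) {v j k : A} {T b c : B} (h : XD H J v T b c j k)
    (hs : ¬ H.LP j k) : gcol H J s j b = false := by
  unfold Cub.LP at hs
  push Not at hs
  obtain ⟨D, hj, hk⟩ := hs
  have hne := h.ne hO
  have hnt := h.nt1 hO
  have hjJ := h.hj.2.1
  have hkJ := h.hk.2.1
  have hQ : H.Q J D j k := by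
    rcases tr_cases_mem hj hjJ with e | ⟨w, e⟩ | e
    · exact absurd (e.2.2 k hk hkJ).symm hne
    · rcases e.2.2.2.2.2 k hk hkJ with e' | e'
      · exact absurd e'.symm hne
      · rw [e']
        exact e
    · exact absurd e (hnt D (mem_bl.2 hj))
  have h1 : ¬ ∃ t, j ∈ H.pt t ∧ H.Tr J t := by
    rintro ⟨t, ht, hT⟩
    exact hnt t (mem_bl.2 ht) hT
  have h2 : Sh H J j := ⟨D, k, hQ, XD_lf1 hO h, XD_lf1 hO h.symm⟩
  unfold gcol
  rw [if_pos hjJ, if_neg h1, if_pos h2, decide_eq_false_iff_not]
  rintro ⟨k', hk'⟩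
  exact P_Q h.hj hk'

theorem st_g : ST_g := by
  intro A B _ _ H J D hO hD
  obtain ⟨⟨s, hs⟩, hI⟩ := hO.1
  refine ⟨gcol H J s, ?_⟩
  intro u v b b' huv hbb hub hvb hvb' hu hv
  by_cases huJ : u ∈ J
  · by_cases hvJ : v ∈ J
    · rcases tr_cases_mem hub huJ with e | ⟨w, e⟩ | e
      · exact absurd (e.2.2 v hvb hvJ).symm huv
      · have hw : v = w := by
          rcases e.2.2.2.2.2 v hvb hvJ with e' | e'
          · exact absurd e'.symm huv
          · exact e'
        subst hw
        have ntu := e.nt hI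
        have ntv := e.symm.nt hI
        have h1 : ¬ ∃ t, u ∈ H.pt t ∧ H.Tr J t := by
          rintro ⟨t, ht, hT⟩
          exact ntu t (mem_bl.2 ht) hT
        have h2 : ¬ ∃ t, v ∈ H.pt t ∧ H.Tr J t := by
          rintro ⟨t, ht, hT⟩
          exact ntv t (mem_bl.2 ht) hT
        unfold gcol
        rw [if_pos huJ, if_pos hvJ, if_neg h1, if_neg h2]
        by_cases hsh : H.IsLf J u ∧ H.IsLf J v
        · have h3 : Sh H J u := ⟨b, v, e, hsh.1, hsh.2⟩
          have h4 : Sh H J v := ⟨b, u, e.symm, hsh.2, hsh.1⟩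
          rw [if_pos h3, if_pos h4]
          have h5 : ∃ k, H.Q J b u k := ⟨v, e⟩
          have h6 : ¬ ∃ k, H.Q J b' v k := by
            rintro ⟨k, hk⟩
            exact hbb (lf_Q hsh.2 e.symm hk)
          simp [h5, h6]
        · have h3 : ¬ Sh H J u := by
            rintro ⟨D', k, hq, l1, l2⟩
            have : k = v := nb1 l1 ⟨D', hq⟩ ⟨b, e⟩
            subst this
            exact hsh ⟨l1, l2⟩
          have h4 : ¬ Sh H J v := by
            rintro ⟨D', k, hq, l1, l2⟩
            have : k = u := nb1 l1 ⟨D', hq⟩ ⟨b, e.symm⟩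
            subst this
            exact hsh ⟨l2, l1⟩
          rw [if_neg h3, if_neg h4]
          exact hs b u v e
      · have h1 : ∃ t, u ∈ H.pt t ∧ H.Tr J t := ⟨b, hub, e⟩
        have h2 : ∃ t, v ∈ H.pt t ∧ H.Tr J t := ⟨b, hvb, e⟩
        have h3 : ¬ H.Tr J b' := fun h => hbb (tr_unique hI hvb hvb' e h)
        unfold gcol
        rw [if_pos huJ, if_pos hvJ, if_pos h1, if_pos h2]
        simp [e, h3]
    · obtain ⟨_, hd⟩ := hv.resolve_left hvJ
      have hvD : v ∈ D := hd.1
      have hU := tok_U hd.2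
      obtain ⟨T, b0, c0, j, k, hx, hlp⟩ := hD v hvD hvJ
      have hgv : gcol H J s v b' = true := by
        unfold gcol
        rw [if_neg hvJ]
      rw [hgv]
      rcases hx.all hvb with e | e | e
      · rw [e] at hub
        exact absurd huJ (hx.hT u hub)
      · rw [e] at hub ⊢
        have : u = j := hx.hj.2.2 u hub huJ
        rw [this, short_col hO s hx hlp]
        simp
      · rw [e] at hub ⊢
        have : u = k := hx.hk.2.2 u hub huJ
        have hlp' : ¬ H.LP k j := by
          intro h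
          apply hlp
          intro D' h'
          exact h D' ⟨h'.2, h'.1⟩
        rw [this, short_col hO s hx.symm hlp']
        simp
  · obtain ⟨_, hd⟩ := hu.resolve_left huJ
    have hU := tok_U hd.2
    have hvJ : v ∉ J := hU v hvb
    obtain ⟨_, hd'⟩ := hv.resolve_left hvJ
    exact absurd (F1 hO hvb hvb' hU (tok_U hd'.2)) hbb

end Pool.Agent.Helper35.Inj
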